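import Pool.Agent.Helper50.BC.Goals

open Real

namespace Pool.Agent.Helper56.BC

open Pool.Agent.Helper50.BC

theorem goalCNT : G_CNT := by
  intro q N hq hN
  have hq2 : (2 : ℝ) ≤ q := by exact_mod_cast hq
  have hq0 : (0 : ℝ) < q := by linarith
  have hl2 : 0 < Real.log 2 := Real.log_pos (by norm_num)
  have hL : Real.log 2 ≤ Real.log q := Real.log_le_log (by norm_num) hq2
  have hL0 : 0 < Real.log q := lt_of_lt_of_le hl2 hL
  have h7000 : 5 * Real.log 7000 ≤ 64 * Real.log 2 := by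
    have h1 : Real.log ((7000 : ℝ) ^ 5) = 5 * Real.log 7000 := by
      rw [Real.log_pow]; norm_num
    have h2 : Real.log ((2 : ℝ) ^ 64) = 64 * Real.log 2 := by
      rw [Real.log_pow]; norm_num
    rw [← h1, ← h2]
    exact Real.log_le_log (by norm_num) (by norm_num)
  have h8 : Real.log 8 = 3 * Real.log 2 := by
    have h2 : Real.log ((2 : ℝ) ^ 3) = 3 * Real.log 2 := by
      rw [Real.log_pow]; norm_num
    rw [← h2]; norm_num
  have hpos : (0 : ℝ) < 7000 * q := by positivity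
  -- the count
  have hcast : ((4 * (7000 * q) ^ q * ((2000 * q + 1) ^ q) ^ 3 : ℕ) : ℝ) =
      4 * (7000 * (q : ℝ)) ^ q * ((2000 * (q : ℝ) + 1) ^ q) ^ 3 := by push_cast; ring
  have hle : (2000 * (q : ℝ) + 1) ≤ 7000 * q := by nlinarith
  have hpow : ((2000 * (q : ℝ) + 1) ^ q) ^ 3 ≤ ((7000 * (q : ℝ)) ^ q) ^ 3 := by
    apply pow_le_pow_left₀ (by positivity)
    apply pow_le_pow_left₀ (by positivity) hle
  have hexp : (7000 * (q : ℝ)) ^ q = exp (q * Real.log (7000 * q)) := by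
    rw [mul_comm (q : ℝ), Real.exp_mul, Real.exp_log hpos, Real.rpow_natCast]
  have hlogm : Real.log (7000 * q) = Real.log 7000 + Real.log q :=
    Real.log_mul (by norm_num) hq0.ne'
  have hb : 2 * ((4 * (7000 * q) ^ q * ((2000 * q + 1) ^ q) ^ 3 : ℕ) : ℝ) ≤
      exp (Real.log 8 + 4 * (q * Real.log (7000 * q))) := by
    rw [hcast]
    have h1 : exp (Real.log 8 + 4 * (q * Real.log (7000 * q))) =
        8 * ((7000 * (q : ℝ)) ^ q * ((7000 * (q : ℝ)) ^ q) ^ 3) := by
      rw [Real.exp_add, Real.exp_log (by norm_num), hexp, ← Real.exp_nat_mul, ← Real.exp_add]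
      congr 2
      push_cast
      ring
    rw [h1]
    have h0 : (0 : ℝ) ≤ (7000 * (q : ℝ)) ^ q := by positivity
    nlinarith [mul_le_mul_of_nonneg_left hpow h0]
  have hE : (0 : ℝ) < exp (-(N * (1 / 100 : ℝ) ^ 2 / 16)) := Real.exp_pos _
  calc 2 * ((4 * (7000 * q) ^ q * ((2000 * q + 1) ^ q) ^ 3 : ℕ) : ℝ) *
        exp (-(N * (1 / 100 : ℝ) ^ 2 / 16))
      ≤ exp (Real.log 8 + 4 * (q * Real.log (7000 * q))) *
        exp (-(N * (1 / 100 : ℝ) ^ 2 / 16)) := mul_le_mul_of_nonneg_right hb hE.le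
    _ = exp (Real.log 8 + 4 * (q * Real.log (7000 * q)) + -(N * (1 / 100 : ℝ) ^ 2 / 16)) := by
        rw [← Real.exp_add]
    _ < exp 0 := by
        apply Real.exp_lt_exp.mpr
        rw [h8, hlogm]
        have hqL : 0 < (q : ℝ) * Real.log q := mul_pos hq0 hL0
        have h1 : (q : ℝ) * (5 * Real.log 7000) ≤ q * (64 * Real.log q) := by
          apply mul_le_mul_of_nonneg_left _ hq0.le
          linarith
        have h2 : 3 * Real.log 2 ≤ 3 / 2 * (q * Real.log q) := by nlinarith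
        have h3 : (10 : ℝ) ^ 7 * (q * Real.log q) * (1 / 100) ^ 2 / 16 ≤
            N * (1 / 100 : ℝ) ^ 2 / 16 := by
          have := mul_le_mul_of_nonneg_right hN (by norm_num : (0 : ℝ) ≤ (1 / 100) ^ 2 / 16)
          linarith
        nlinarith
    _ = 1 := Real.exp_zero

end Pool.Agent.Helper56.BC
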